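import Pool.Agent.Q28.HJ.Small

/-!
# Ordinary primes for summands of André motives generated by sums of ternary cubics: definitions
-/

open CategoryTheory MonoidalCategory

universe v u w

namespace Pool.Agent.Q18.HJ

open Pool.Agent.Q28.HJ (pow JoinData GenBy)

/-- The category `𝓜` of André motives (motivated correspondences, rational coefficients) over an
algebraic closure of the number field `F`, with the hypersurfaces over this closure; and the André
motives over `F`. -/
structure AndreData (𝓜 : Type u) [Category.{v} 𝓜] extends JoinData.{v, u, w} 𝓜 where
  /-- the motive of a smooth hypersurface -/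
  mot : Hyp → 𝓜
  /-- `M` is the motive `h^1(E)` of an elliptic curve `E` -/
  Ell : 𝓜 → Prop
  /-- There is a finite extension `F_0` of `F` such that for every finite extension `F'` of `F_0` the
  maximal ideals `𝔭` of `F'`, with `Newton_τ(Frob_𝔭, M_ℓ) = HP(M_ℓ)` for all primes `ℓ` with `𝔭 ∤ ℓ` and
  all embeddings `τ`, have density one. -/
  Ord : 𝓜 → Prop
  /-- the André motives over `F` -/
  MotF : Type w
  /-- base change to the algebraic closure -/
  bc : MotF → 𝓜
  /-- The maximal ideals `𝔭` of `F` with `Newton_τ(Frob_𝔭, R_ℓ) = HP(R_ℓ)` for all primes `ℓ` with
  `𝔭 ∤ ℓ` and all embeddings `τ` have positive lower density; in particular there are infinitely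
  many. Over some finite extension of `F` they have density one. -/
  OrdF : MotF → Prop

namespace AndreData

variable {𝓜 : Type u} [Category.{v} 𝓜] [MonoidalCategory 𝓜] [Preadditive 𝓜]
  (T : AndreData.{v, u, w} 𝓜)

/-- The motive is obtained by tensor products, direct sums, direct summands and Tate twists from the
motives of elliptic curves and of the smooth hypersurfaces of arbitrary dimension which are sums of
cubic forms in at most three variables or of binary quartic forms (see `IsEllipticSum`). -/
def EllipticType (M : 𝓜) : Prop :=
  GenBy T.L (fun N => T.Ell N ∨ ∃ W, T.IsEllipticSum W ∧ N = T.mot W) M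

/-- Known facts.
* `core`: sums of forms (Shioda, Katsura; by algebraic correspondences); `mot`: the motive of a
  hypersurface is a direct sum of `M_X` and of powers of `L`.
* `elliptic`: plane cubics, cubic surfaces, the curves `f(x, y) = u ^ 4`.
* `ord`: Let `M` be an André motive generated by elliptic curves. The Hodge conjecture is true for
  products of elliptic curves (Imai, Murty), so that motivated cycles on them are algebraic, and `M`
  is a direct summand of a Tate twist of a sum of motives of products of elliptic curves, cut out by an
  algebraic cycle. At the primes where all these curves have ordinary reduction (density one over a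
  finite extension: Deuring, Serre) the Newton and the Hodge polygon of the sum coincide; so they do
  for `M`, as the Newton polygon lies above the Hodge polygon for `M` and for its complement (Katz,
  Messing, Mazur).
* `descend`: a prime of `F` has the property if a prime over it in a finite extension has it. -/
structure Facts : Prop where
  core : T.CoreFacts
  mot : ∀ X : T.Hyp, T.Smooth X → GenBy T.L (fun N => N = T.prim X) (T.mot X)
  elliptic : T.EllipticFacts T.Ell
  ord : ∀ M : 𝓜, GenBy T.L T.Ell M → T.Ord M
  descend : ∀ R : T.MotF, T.Ord (T.bc R) → T.OrdF R

variable {T}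

lemma gen_elliptic (hT : T.Facts) {M : 𝓜} (hM : T.EllipticType M) : GenBy T.L T.Ell M := by
  refine GenBy.bind ?_ hM
  rintro N (hN | ⟨W, hW, rfl⟩)
  · exact GenBy.of hN
  · obtain ⟨hs, h⟩ := JoinData.elliptic_sum hT.core hT.elliptic hW
    refine GenBy.bind ?_ (hT.mot W hs.1)
    rintro N rfl
    exact h

/-- main theorem -/
theorem final (hT : T.Facts) (M R : T.MotF) (hM : T.EllipticType (T.bc M))
    (hR : Nonempty (Retract (T.bc R) (T.bc M))) : T.OrdF R := by
  obtain ⟨r⟩ := hR
  exact hT.descend R (hT.ord _ (gen_elliptic hT (hM.retract r)))

end AndreData

end Pool.Agent.Q18.HJ
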