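import Pool.Agent.Q28.HJ.GMain

/-!
# Cycle complexes of arithmetic schemes built from sums of forms over finite fields: definitions
-/

open CategoryTheory MonoidalCategory

universe v u w

namespace Pool.Agent.Q18.HJ

open Pool.Agent.Q28.HJ (pow JoinData)

/-- The motives obtained from those with the property `P`, the unit motive and the Lefschetz motive `L`
by tensor products, direct sums and direct summands (`M` is a direct summand of `A ⊕ A'`). -/
inductive Eff {𝓜 : Type u} [Category.{v} 𝓜] [Preadditive 𝓜] [MonoidalCategory 𝓜] (L : 𝓜)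
    (P : 𝓜 → Prop) : 𝓜 → Prop
  | of {M : 𝓜} (h : P M) : Eff L P M
  | unit : Eff L P (𝟙_ 𝓜)
  | lef : Eff L P L
  | tensor {M N : 𝓜} (hM : Eff L P M) (hN : Eff L P N) : Eff L P (M ⊗ N)
  | split {M A A' : 𝓜} (i₁ : M ⟶ A) (r₁ : A ⟶ M) (i₂ : M ⟶ A') (r₂ : A' ⟶ M)
      (h : i₁ ≫ r₁ + i₂ ≫ r₂ = 𝟙 M) (hA : Eff L P A) (hA' : Eff L P A') : Eff L P M

/-- The Chow motives `𝓜 p` over the algebraic closures of the fields with `p` elements, with the
hypersurfaces of degree prime to `p` over these closures; and the arithmetic schemes (separated and of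
finite type over `ℤ`). -/
structure ArData (𝓜 : ℕ → Type u) [∀ p, Category.{v} (𝓜 p)] where
  /-- the hypersurfaces, their primitive motives and the Lefschetz motive -/
  J : ∀ p, JoinData.{v, u, w} (𝓜 p)
  /-- the motive of a smooth hypersurface -/
  mot : ∀ p, (J p).Hyp → 𝓜 p
  /-- the motive is the one of a smooth projective curve -/
  Curve : ∀ p, 𝓜 p → Prop
  /-- the arithmetic schemes -/
  Sch : Type w
  /-- `Emp X`: `X` is empty -/
  Emp : Sch → Prop
  /-- `X` is the spectrum of the ring of integers of a number field -/
  Int : Sch → Prop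
  /-- `Proj p X`: `X` is smooth and projective over a finite field of characteristic `p` -/
  Proj : ℕ → Sch → Prop
  /-- the Chow motive, over the algebraic closure, of a scheme which is smooth and projective over a
  finite field of characteristic `p` -/
  motV : ∀ p, Sch → 𝓜 p
  /-- `Dec Z X U`: `Z` is a closed subscheme of `X` and `U = X - Z` -/
  Dec : Sch → Sch → Sch → Prop
  /-- `Disj X Y V`: `V` is the disjoint union of `X` and `Y` -/
  Disj : Sch → Sch → Sch → Prop
  /-- `Aff E X`: `E` is an affine bundle over `X` -/
  Aff : Sch → Sch → Prop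
  /-- `Cover 𝒰 X`: `𝒰` is the set of all iterated fibre products over `X` of the members of a finite
  family of finite étale morphisms which together are surjective onto `X` -/
  Cover : Set Sch → Sch → Prop
  /-- for all `n < 0` and all `i` the group `H^i(X_et, ℤ^c(n))` is finitely generated -/
  FG : Sch → Prop

namespace ArData

variable {𝓜 : ℕ → Type u} [∀ p, Category.{v} (𝓜 p)] [∀ p, Preadditive (𝓜 p)]
  [∀ p, MonoidalCategory (𝓜 p)] (T : ArData.{v, u, w} 𝓜)

/-- `W` is a sum, in disjoint sets of variables, of binary forms of one degree `d ≥ 2`, or of cubic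
forms in at most three variables, or of such forms minus `u ^ d`, `u` a further variable. The number of
summands and so the dimension of `W` is arbitrary. -/
def CurveSum (p : ℕ) (W : (T.J p).Hyp) : Prop :=
  (∃ d, 2 ≤ d ∧ (T.J p).SumOf ((T.J p).blocks ((T.J p).forms d 0)) W) ∨
    (T.J p).SumOf ((T.J p).blocks ((T.J p).forms 3 1)) W

/-- The motive is obtained by tensor products, direct sums, direct summands and negative Tate twists
from the motives of curves and of the hypersurfaces `W` with `CurveSum p W`. -/
def CurveType (p : ℕ) (M : 𝓜 p) : Prop :=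
  Eff (T.J p).L (fun N => T.Curve p N ∨ ∃ W, T.CurveSum p W ∧ N = T.mot p W) M

/-- The smallest class of arithmetic schemes which contains the empty scheme, the spectra of the rings of
integers of number fields and all schemes which are smooth and projective over a finite field, of any
characteristic, with motive of type `CurveType`; which contains with two of `Z`, `X`, `U = X - Z` also
the third one, with `X` and `Y` their disjoint union, with a disjoint union its parts, with `X` every
affine bundle over `X`; and which contains `X` if it contains all iterated fibre products of a finite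
étale covering of `X`. -/
inductive Built : T.Sch → Prop
  | empty {X : T.Sch} (h : T.Emp X) : Built X
  | int {X : T.Sch} (h : T.Int X) : Built X
  | proj {X : T.Sch} (p : ℕ) (h : T.Proj p X) (hM : T.CurveType p (T.motV p X)) : Built X
  | total {Z X U : T.Sch} (h : T.Dec Z X U) (hZ : Built Z) (hU : Built U) : Built X
  | opens {Z X U : T.Sch} (h : T.Dec Z X U) (hZ : Built Z) (hX : Built X) : Built U
  | closed {Z X U : T.Sch} (h : T.Dec Z X U) (hX : Built X) (hU : Built U) : Built Z
  | disj {X Y V : T.Sch} (h : T.Disj X Y V) (hX : Built X) (hY : Built Y) : Built V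
  | left {X Y V : T.Sch} (h : T.Disj X Y V) (hV : Built V) : Built X
  | right {X Y V : T.Sch} (h : T.Disj X Y V) (hV : Built V) : Built Y
  | aff {E X : T.Sch} (h : T.Aff E X) (hX : Built X) : Built E
  | cover {𝒰 : Set T.Sch} {X : T.Sch} (h : T.Cover 𝒰 X) (hU : ∀ U ∈ 𝒰, Built U) : Built X

/-- Known facts.
* `core`: sums of forms (Shioda, Katsura); `mot`: the motive of a hypersurface is a direct sum of `M_X`
  and of powers of `L`.
* `curves`: finite sets and curves; `cubic`: cubic surfaces are rational.
* `proj` (Morin): `X` is smooth and projective over a finite field and its Chow motive over the algebraic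
  closure, so over a finite extension of the field, is a direct summand of a sum of motives of products
  of curves and projective lines; so `X` belongs to the class `A(𝔽_q)` (descent and retracts), for which
  finite generation is known (Soulé, Geisser, Morin).
* `empty` to `cover`: the closure properties of the class `𝓛(ℤ)` (Morin). -/
structure Facts : Prop where
  core : ∀ p, (T.J p).CoreFacts
  mot : ∀ (p : ℕ) (X : (T.J p).Hyp), (T.J p).Smooth X →
    Eff (T.J p).L (fun N => N = (T.J p).prim X) (T.mot p X)
  curves : ∀ (p : ℕ) (X : (T.J p).Hyp), (T.J p).Smooth X → (T.J p).dim X ≤ 1 →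
    Eff (T.J p).L (T.Curve p) ((T.J p).prim X)
  cubic : ∀ (p : ℕ) (X : (T.J p).Hyp), (T.J p).Smooth X → (T.J p).deg X = 3 →
    (T.J p).dim X ≤ 2 → Eff (T.J p).L (T.Curve p) ((T.J p).prim X)
  proj : ∀ {X : T.Sch} (p : ℕ), T.Proj p X → Eff (T.J p).L (T.Curve p) (T.motV p X) → T.FG X
  empty : ∀ {X : T.Sch}, T.Emp X → T.FG X
  int : ∀ {X : T.Sch}, T.Int X → T.FG X
  total : ∀ {Z X U : T.Sch}, T.Dec Z X U → T.FG Z → T.FG U → T.FG X
  opens : ∀ {Z X U : T.Sch}, T.Dec Z X U → T.FG Z → T.FG X → T.FG U
  closed : ∀ {Z X U : T.Sch}, T.Dec Z X U → T.FG X → T.FG U → T.FG Z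
  disj : ∀ {X Y V : T.Sch}, T.Disj X Y V → (T.FG V ↔ T.FG X ∧ T.FG Y)
  aff : ∀ {E X : T.Sch}, T.Aff E X → T.FG X → T.FG E
  cover : ∀ {𝒰 : Set T.Sch} {X : T.Sch}, T.Cover 𝒰 X → (∀ U ∈ 𝒰, T.FG U) → T.FG X

end ArData

end Pool.Agent.Q18.HJ
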