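import Pool.Agent.Q18.HJ.ArDefs

/-!
# Cycle complexes of arithmetic schemes built from sums of forms over finite fields
-/

open CategoryTheory MonoidalCategory

universe v u w

namespace Pool.Agent.Q18.HJ

open Pool.Agent.Q28.HJ (pow JoinData)

section

variable {𝓜 : Type u} [Category.{v} 𝓜] [Preadditive 𝓜] [MonoidalCategory 𝓜]

lemma Eff.bind {L : 𝓜} {P Q : 𝓜 → Prop} (h : ∀ M, P M → Eff L Q M) {M : 𝓜}
    (hM : Eff L P M) : Eff L Q M := by
  induction hM with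
  | of hM => exact h _ hM
  | unit => exact .unit
  | lef => exact .lef
  | tensor _ _ ih₁ ih₂ => exact .tensor ih₁ ih₂
  | split i₁ r₁ i₂ r₂ e _ _ ih₁ ih₂ => exact .split i₁ r₁ i₂ r₂ e ih₁ ih₂

variable {T : JoinData.{v, u, w} 𝓜} {P : 𝓜 → Prop}

lemma eff_join (hT : T.CoreFacts) {X Y W X' Y' : T.Hyp} (h : T.Join X Y W) (hX : T.Cyc X X')
    (hY : T.Cyc Y Y') (a : Eff T.L P (T.prim X)) (b : Eff T.L P (T.prim Y))
    (a' : Eff T.L P (T.prim X')) (b' : Eff T.L P (T.prim Y')) : Eff T.L P (T.prim W) := by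
  obtain ⟨i₁, r₁, i₂, r₂, e⟩ := hT.join_split h hX hY
  exact .split i₁ r₁ i₂ r₂ e (.tensor a' b') (.tensor (.tensor a b) .lef)

/-- the primitive motive of a sum of blocks is generated by those of the blocks -/
lemma eff_sum (hT : T.CoreFacts) {d : ℕ} (hd : 2 ≤ d) {B : Set T.Hyp}
    (hB : ∀ X ∈ B, T.Smooth X ∧ T.deg X = d) (hP : ∀ X, T.Diag X → T.deg X = d → X ∈ B)
    (hG : ∀ X ∈ T.blocks B, Eff T.L P (T.prim X)) {W : T.Hyp} (h : T.SumOf (T.blocks B) W) :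
    (T.Smooth W ∧ T.deg W = d) ∧ Eff T.L P (T.prim W) ∧
      ∀ W', T.Cyc W W' → Eff T.L P (T.prim W') := by
  have key : ∀ {X X' X'' : T.Hyp}, T.deg X = d → Eff T.L P (T.prim X) → T.Cyc X X' →
      Eff T.L P (T.prim X') → T.Cyc X' X'' → Eff T.L P (T.prim X'') := by
    intro X X' X'' hX a h1 a' h2
    obtain ⟨Q, p1, p2, p3⟩ := hT.cyc_cyc h1 h2
    have hQB := hP Q p1 (p2.trans hX)
    obtain ⟨Q', hQ'⟩ := hT.cyc_exists Q (hB Q hQB).1 (by rw [(hB Q hQB).2]; exact hd)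
    exact eff_join hT p3 h1 hQ' a (hG Q (Or.inl hQB)) a' (hG Q' (Or.inr ⟨Q, hQB, hQ'⟩))
  induction h with
  | @base X hX =>
    refine ⟨?_, hG X hX, fun W' hW' => ?_⟩
    · rcases hX with hX | ⟨X₀, h₀, h⟩
      · exact hB X hX
      · obtain ⟨a, b, -⟩ := hT.cyc_prop h
        exact ⟨a, b.trans (hB X₀ h₀).2⟩
    · rcases hX with hX | ⟨X₀, h₀, h⟩
      · exact hG W' (Or.inr ⟨X, hX, hW'⟩)
      · exact key (hB X₀ h₀).2 (hG X₀ (Or.inl h₀)) h (hG X (Or.inr ⟨X₀, h₀, h⟩)) hW'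
  | @join X Y W _ _ h ih₁ ih₂ =>
    obtain ⟨s₁, a₁, c₁⟩ := ih₁
    obtain ⟨s₂, a₂, c₂⟩ := ih₂
    obtain ⟨j1, j2, -⟩ := hT.join_prop h
    obtain ⟨X', hX'⟩ := hT.cyc_exists X s₁.1 (by rw [s₁.2]; exact hd)
    refine ⟨⟨j1, j2.trans s₁.2⟩, ?_, fun W' hW' => ?_⟩
    · obtain ⟨Y', hY'⟩ := hT.cyc_exists Y s₂.1 (by rw [s₂.2]; exact hd)
      exact eff_join hT h hX' hY' a₁ a₂ (c₁ X' hX') (c₂ Y' hY')
    · obtain ⟨Y', hY', hj⟩ := hT.join_cyc h hW'
      obtain ⟨k1, k2, -⟩ := hT.cyc_prop hY'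
      obtain ⟨Y'', hY''⟩ := hT.cyc_exists Y' k1 (by rw [k2, s₂.2]; exact hd)
      exact eff_join hT hj hX' hY'' a₁ (c₂ Y' hY') (c₁ X' hX')
        (key s₂.2 a₂ hY' (c₂ Y' hY') hY'')

end

namespace ArData

variable {𝓜 : ℕ → Type u} [∀ p, Category.{v} (𝓜 p)] [∀ p, Preadditive (𝓜 p)]
  [∀ p, MonoidalCategory (𝓜 p)] {T : ArData.{v, u, w} 𝓜}

lemma sum_gen (hT : T.Facts) {p : ℕ} {W : (T.J p).Hyp} (h : T.CurveSum p W) :
    Eff (T.J p).L (T.Curve p) (T.mot p W) := by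
  have h2 : (T.J p).Smooth W ∧ Eff (T.J p).L (T.Curve p) ((T.J p).prim W) := by
    rcases h with ⟨d, hd, h⟩ | h
    · have := eff_sum (hT.core p) hd (B := (T.J p).forms d 0) (fun X hX => ⟨hX.1, hX.2.1⟩)
        (fun X hX hd => ?_) (P := T.Curve p) ?_ h
      · exact ⟨this.1.1, this.2.1⟩
      · obtain ⟨a, b⟩ := (hT.core p).diag_prop hX
        exact ⟨a, hd, by omega⟩
      · rintro X (⟨h1, h2, h3⟩ | ⟨Y, ⟨h1, h2, h3⟩, hY⟩)
        · exact hT.curves p X h1 (by omega)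
        · obtain ⟨a, b, c⟩ := (hT.core p).cyc_prop hY
          exact hT.curves p X a (by omega)
    · have := eff_sum (hT.core p) (d := 3) (by norm_num) (B := (T.J p).forms 3 1)
        (fun X hX => ⟨hX.1, hX.2.1⟩) (fun X hX hd => ?_) (P := T.Curve p) ?_ h
      · exact ⟨this.1.1, this.2.1⟩
      · obtain ⟨a, b⟩ := (hT.core p).diag_prop hX
        exact ⟨a, hd, by omega⟩
      · rintro X (⟨h1, h2, h3⟩ | ⟨Y, ⟨h1, h2, h3⟩, hY⟩)
        · exact hT.cubic p X h1 h2 (by omega)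
        · obtain ⟨a, b, c⟩ := (hT.core p).cyc_prop hY
          exact hT.cubic p X a (by omega) (by omega)
  refine (hT.mot p W h2.1).bind ?_
  rintro N rfl
  exact h2.2

/-- main theorem -/
theorem final (hT : T.Facts) {X : T.Sch} (hX : T.Built X) : T.FG X := by
  induction hX with
  | empty h => exact hT.empty h
  | int h => exact hT.int h
  | proj p h hM =>
    refine hT.proj p h (Eff.bind ?_ hM)
    rintro N (hN | ⟨W, hW, rfl⟩)
    · exact .of hN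
    · exact sum_gen hT hW
  | total h _ _ a b => exact hT.total h a b
  | opens h _ _ a b => exact hT.opens h a b
  | closed h _ _ a b => exact hT.closed h a b
  | disj h _ _ a b => exact (hT.disj h).mpr ⟨a, b⟩
  | left h _ a => exact ((hT.disj h).mp a).1
  | right h _ a => exact ((hT.disj h).mp a).2
  | aff h _ a => exact hT.aff h a
  | cover h _ a => exact hT.cover h a

end ArData

end Pool.Agent.Q18.HJ
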