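import Pool.Agent.Q28.HJ.Small

/-!
# Ordinary primes for images of hypersurfaces given by sums of forms: definitions
-/

open CategoryTheory MonoidalCategory

universe v u w

namespace Pool.Agent.Q18.HJ

open Pool.Agent.Q28.HJ (pow JoinData GenBy)

/-- The category `𝓜` of pure motives with rational coefficients (for homological equivalence) over an
algebraic closure of the number field `F`, with the hypersurfaces over this closure; and the projective
varieties over `F`. -/
structure OrdData (𝓜 : Type u) [Category.{v} 𝓜] extends JoinData.{v, u, w} 𝓜 where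
  /-- the motive of a smooth hypersurface -/
  mot : Hyp → 𝓜
  /-- `M` is the motive `h^1(E)` of an elliptic curve `E` -/
  Ell : 𝓜 → Prop
  /-- `M` is the motive of an abelian surface, of an abelian variety with complex multiplication, or of a
  K3 surface -/
  Known : 𝓜 → Prop
  /-- There is a finite extension `F_0` of `F` such that for every finite extension `F'` of `F_0` the
  maximal ideals of `F'`, at which for all `n` and all `ℓ` different from the residue characteristic
  the Newton polygon of Frobenius on `H^n(M, ℚ_ℓ)` is equal to the Hodge-Tate polygon, have density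
  one. -/
  Ord : 𝓜 → Prop
  /-- the projective varieties over `F` -/
  Var : Type w
  /-- `Y` is smooth -/
  SmoothV : Var → Prop
  /-- the motive of a smooth projective variety, over the algebraic closure -/
  motV : Var → 𝓜
  /-- `Onto Y X`: there is a surjective morphism `Y → X` -/
  Onto : Var → Var → Prop
  /-- For all `n` the maximal ideals `𝔭` of `F` with
  `Newton(Frob_𝔭 | IH^n(X, ℚ_ℓ)) = HodgeP(IH^n(X, ℚ_ℓ))`, for all `ℓ` different from the residue
  characteristic of `𝔭`, have positive lower density; in particular there are infinitely many. Over some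
  finite extension of `F` they have density one. -/
  OrdIH : Var → Prop

namespace OrdData

variable {𝓜 : Type u} [Category.{v} 𝓜] [MonoidalCategory 𝓜] [Preadditive 𝓜]
  (T : OrdData.{v, u, w} 𝓜)

/-- The motive is obtained by tensor products, direct sums, direct summands and Tate twists from the
motives of elliptic curves, abelian surfaces, abelian varieties with complex multiplication, K3
surfaces, and of the smooth hypersurfaces of arbitrary dimension which are sums of cubic forms in at
most three variables or of binary quartic forms (see `IsEllipticSum`). -/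
def OrdType (M : 𝓜) : Prop :=
  GenBy T.L (fun N => T.Ell N ∨ T.Known N ∨ ∃ W, T.IsEllipticSum W ∧ N = T.mot W) M

/-- Known facts.
* `core`: sums of forms (Shioda, Katsura); `mot`: the motive of a hypersurface is a direct sum of `M_X`
  and of powers of `L`.
* `elliptic`: plane cubics, cubic surfaces, the curves `f(x, y) = u ^ 4`.
* `ell`: elliptic curves (Deuring with complex multiplication, Serre without).
* `known`: abelian surfaces (Ogus, Sawin), abelian varieties with complex multiplication (Shimura,
  Taniyama: the primes which split completely in the field of complex multiplication), K3 surfaces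
  (Bogomolov, Zarhin).
* `unit` to `untwist`: the polygons of tensor products and sums are given by those of the factors, and
  two sets of density one have an intersection of density one; for a direct summand use that the
  Newton polygon lies above the Hodge polygon for `M` and for its complement (Katz, Messing, Mazur,
  Faltings).
* `image`: let `Y → X` be surjective, `Y` smooth. By the decomposition theorem `IH^n(X)` is a direct
  summand of `H^n(Y)` as a representation of Galois, and both systems are strictly compatible. (A prime
  of `F` is ordinary if a prime over it in a finite extension is ordinary.) -/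
structure Facts : Prop where
  core : T.CoreFacts
  mot : ∀ X : T.Hyp, T.Smooth X → GenBy T.L (fun N => N = T.prim X) (T.mot X)
  elliptic : T.EllipticFacts T.Ell
  ell : ∀ M : 𝓜, T.Ell M → T.Ord M
  known : ∀ M : 𝓜, T.Known M → T.Ord M
  unit : T.Ord (𝟙_ 𝓜)
  lef : T.Ord T.L
  tensor : ∀ M N : 𝓜, T.Ord M → T.Ord N → T.Ord (M ⊗ N)
  split : ∀ (M A A' : 𝓜) (i₁ : M ⟶ A) (r₁ : A ⟶ M) (i₂ : M ⟶ A') (r₂ : A' ⟶ M),
    i₁ ≫ r₁ + i₂ ≫ r₂ = 𝟙 M → T.Ord A → T.Ord A' → T.Ord M
  untwist : ∀ M : 𝓜, T.Ord (M ⊗ T.L) → T.Ord M
  image : ∀ {Y X : T.Var}, T.SmoothV Y → T.Onto Y X → T.Ord (T.motV Y) → T.OrdIH X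

variable {T}

lemma ord_gen (hT : T.Facts) {Q : 𝓜 → Prop} (hQ : ∀ M, Q M → T.Ord M) {M : 𝓜}
    (hM : GenBy T.L Q M) : T.Ord M :=
  JoinData.genBy_property hT.unit hT.lef hT.tensor hT.split hT.untwist hQ hM

lemma ord_type (hT : T.Facts) {M : 𝓜} (hM : T.OrdType M) : T.Ord M := by
  refine ord_gen hT ?_ hM
  rintro N (hN | hN | ⟨W, hW, rfl⟩)
  · exact hT.ell N hN
  · exact hT.known N hN
  · obtain ⟨hs, h⟩ := JoinData.elliptic_sum hT.core hT.elliptic hW
    refine ord_gen hT ?_ (hT.mot W hs.1)
    rintro N rfl
    exact ord_gen hT (fun N hN => hT.ell N hN) h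

/-- main theorem -/
theorem final (hT : T.Facts) : (∀ M : 𝓜, T.OrdType M → T.Ord M) ∧
    ∀ Y X : T.Var, T.SmoothV Y → T.OrdType (T.motV Y) → T.Onto Y X → T.OrdIH X :=
  ⟨fun _ hM => ord_type hT hM, fun _ _ hY hM h => hT.image hY h (ord_type hT hM)⟩

end OrdData

end Pool.Agent.Q18.HJ
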