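import Pool.Agent.Q28.HJ.Small

/-!
# Semisimplicity of Galois representations of motives generated by sums of small forms: definitions
-/

open CategoryTheory MonoidalCategory

universe v u w

namespace Pool.Agent.Q18.HJ

open Pool.Agent.Q28.HJ (pow JoinData GenBy)

/-- The category `𝓜` of pure motives over an algebraic closure of the number field `F`, with rational
coefficients and for homological equivalence in `p`-adic cohomology, with the hypersurfaces over this
closure; and the pure motives over `F` with their `p`-adic realisations. -/
structure SemiData (𝓜 : Type u) [Category.{v} 𝓜] extends JoinData.{v, u, w} 𝓜 where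
  /-- the motive of a smooth hypersurface -/
  mot : Hyp → 𝓜
  /-- `M` is the motive of an abelian variety, of a curve or of a K3 surface -/
  Known : 𝓜 → Prop
  /-- `M` is the motive `h^1(E)` of an elliptic curve `E` -/
  Ell : 𝓜 → Prop
  /-- the `p`-adic realisation of `M` is a semisimple representation of all sufficiently small open
  subgroups of the Galois group `G_F` -/
  Semi : 𝓜 → Prop
  /-- for all sufficiently small open subgroups `U` of `G_F` the commutant of `U` in the `p`-adic
  realisation `M_p` is `End(M) ⊗ ℚ_p`, and this is a semisimple algebra -/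
  Tate : 𝓜 → Prop
  /-- the pure motives over `F` -/
  MotF : Type w
  /-- base change to the algebraic closure -/
  bc : MotF → 𝓜
  /-- the `p`-adic realisation of the motive over `F` is a semisimple representation of `G_F` -/
  SemiF : MotF → Prop
  /-- the commutant of `G_F` in the `p`-adic realisation of the motive `X` over `F` is
  `End(X) ⊗ ℚ_p`, and this is a semisimple algebra (so the algebra generated by `G_F` is its
  bicommutant) -/
  TateF : MotF → Prop

namespace SemiData

variable {𝓜 : Type u} [Category.{v} 𝓜] [MonoidalCategory 𝓜] [Preadditive 𝓜]
  (T : SemiData.{v, u, w} 𝓜)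

/-- The motive is obtained by tensor products, direct sums, direct summands and Tate twists from the
motives of abelian varieties, curves, K3 surfaces and of the smooth hypersurfaces of arbitrary
dimension which are sums of small forms (see `IsSmallSum`). -/
def SmallType (M : 𝓜) : Prop :=
  GenBy T.L (fun N => T.Known N ∨ ∃ W, T.IsSmallSum W ∧ N = T.mot W) M

/-- The motive is obtained by tensor products, direct sums, direct summands and Tate twists from the
motives `h^1` of elliptic curves and from the motives of the smooth hypersurfaces of arbitrary
dimension which are sums of cubic forms in at most three variables or of binary quartic forms (see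
`IsEllipticSum`). -/
def EllipticType (M : 𝓜) : Prop :=
  GenBy T.L (fun N => T.Ell N ∨ ∃ W, T.IsEllipticSum W ∧ N = T.mot W) M

/-- Known facts.
* `core`: sums of forms (Shioda, Katsura); `mot`: the motive of a hypersurface is a direct sum of `M_X`
  and of powers of `L`.
* `small`: the Galois representation is semisimple for the primitive cohomology of the smooth
  hypersurfaces of dimension at most one, cubic hypersurfaces of dimension at most five, and quartic
  hypersurfaces of dimension at most three (Faltings, for the Jacobians of curves and the intermediate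
  Jacobians of cubic and quartic threefolds and cubic fivefolds, and by the Kuga-Satake construction
  of Deligne and André for quartic surfaces and cubic fourfolds).
* `known`: abelian varieties and curves (Faltings), K3 surfaces (Deligne, André, Faltings).
* `elliptic`: plane cubics, cubic surfaces, the curves `f(x, y) = u ^ 4`.
* `unit` to `untwist`: tensor products, sums, summands and twists of semisimple representations in
  characteristic zero.
* `tate`: for the motives generated by elliptic curves, homological and numerical equivalence coincide
  and the Tate conjecture is true (Lieberman; Imai for the algebra of Hodge classes; Serre, Ribet for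
  the image of Galois), and the representations are semisimple (Faltings).
* `descend`: a representation in characteristic zero is semisimple if it is so on a subgroup of finite
  index; `descend_tate`: take invariants under the finite Galois group. -/
structure Facts : Prop where
  core : T.CoreFacts
  mot : ∀ X : T.Hyp, T.Smooth X → GenBy T.L (fun N => N = T.prim X) (T.mot X)
  small : T.SmallFacts T.Semi
  known : ∀ M : 𝓜, T.Known M → T.Semi M
  elliptic : T.EllipticFacts T.Ell
  unit : T.Semi (𝟙_ 𝓜)
  lef : T.Semi T.L
  tensor : ∀ M N : 𝓜, T.Semi M → T.Semi N → T.Semi (M ⊗ N)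
  split : ∀ (M A A' : 𝓜) (i₁ : M ⟶ A) (r₁ : A ⟶ M) (i₂ : M ⟶ A') (r₂ : A' ⟶ M),
    i₁ ≫ r₁ + i₂ ≫ r₂ = 𝟙 M → T.Semi A → T.Semi A' → T.Semi M
  untwist : ∀ M : 𝓜, T.Semi (M ⊗ T.L) → T.Semi M
  tate : ∀ M : 𝓜, GenBy T.L T.Ell M → T.Semi M ∧ T.Tate M
  descend : ∀ X : T.MotF, T.Semi (T.bc X) → T.SemiF X
  descend_tate : ∀ X : T.MotF, T.Tate (T.bc X) → T.TateF X

variable {T}

lemma semi_gen (hT : T.Facts) {Q : 𝓜 → Prop} (hQ : ∀ M, Q M → T.Semi M) {M : 𝓜}
    (hM : GenBy T.L Q M) : T.Semi M :=
  JoinData.genBy_property hT.unit hT.lef hT.tensor hT.split hT.untwist hQ hM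

lemma semi_small (hT : T.Facts) {M : 𝓜} (hM : T.SmallType M) : T.Semi M := by
  refine semi_gen hT ?_ hM
  rintro N (hN | ⟨W, hW, rfl⟩)
  · exact hT.known N hN
  · obtain ⟨hs, h⟩ := JoinData.small_sum hT.core hT.small hW
    refine semi_gen hT ?_ (hT.mot W hs)
    rintro N rfl
    exact semi_gen hT (fun _ h => h) h

lemma gen_elliptic (hT : T.Facts) {M : 𝓜} (hM : T.EllipticType M) : GenBy T.L T.Ell M := by
  refine GenBy.bind ?_ hM
  rintro N (hN | ⟨W, hW, rfl⟩)
  · exact GenBy.of hN
  · obtain ⟨hs, h⟩ := JoinData.elliptic_sum hT.core hT.elliptic hW
    refine GenBy.bind ?_ (hT.mot W hs.1)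
    rintro N rfl
    exact h

/-- main theorem -/
theorem final (hT : T.Facts) : (∀ X : T.MotF, T.SmallType (T.bc X) → T.SemiF X) ∧
    ∀ X : T.MotF, T.EllipticType (T.bc X) → T.SemiF X ∧ T.TateF X := by
  refine ⟨fun X hX => hT.descend X (semi_small hT hX), fun X hX => ?_⟩
  obtain ⟨h1, h2⟩ := hT.tate _ (gen_elliptic hT hX)
  exact ⟨hT.descend X h1, hT.descend_tate X h2⟩

end SemiData

end Pool.Agent.Q18.HJ
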